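import Pool.Agent.Run7.h952.LH.Even

/-!
# Cuts of the coset graph of `H` and an involution `a`
-/

set_option autoImplicit false
set_option linter.unusedSectionVars false

namespace Run7.h952.LH

open Finset Pool.Agent.Helper879.ECD
open scoped Pointwise

variable {G : Type} [Group G] [Fintype G]

attribute [local instance] Classical.propDecidable

/-- number of `x` with exactly one of `xH`, `xaH` in `X` -/
noncomputable def cG (H : Subgroup G) (a : G) (X : Finset (G ⧸ H)) : ℕ :=
  cn (fun x : G => (x : G ⧸ H)) (fun x : G => ((x * a : G) : G ⧸ H)) univ X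

theorem mem_smul_mk (H : Subgroup G) (X : Finset (G ⧸ H)) (g x : G) :
    ((x : G) : G ⧸ H) ∈ g • X ↔ ((g⁻¹ * x : G) : G ⧸ H) ∈ X := by
  rw [← Finset.inv_smul_mem_iff]
  exact Iff.rfl

theorem cG_smul (H : Subgroup G) (a : G) (X : Finset (G ⧸ H)) (g : G) :
    cG H a (g • X) = cG H a X := by
  unfold cG cn
  apply Finset.card_nbij' (fun x => g⁻¹ * x) (fun x => g * x)
  · intro x hx
    simp only [Finset.coe_filter, Finset.mem_univ, true_and, Set.mem_ofPred_eq, mem_smul_mk] at hx ⊢
    rw [← mul_assoc] at hx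
    exact hx
  · intro x hx
    simp only [Finset.coe_filter, Finset.mem_univ, true_and, Set.mem_ofPred_eq, mem_smul_mk] at hx ⊢
    have e1 : g⁻¹ * (g * x) = x := by group
    have e2 : g⁻¹ * (g * x * a) = x * a := by group
    rw [e1, e2]
    exact hx
  · intro x _; simp
  · intro x _; simp

variable (H : Subgroup G) [Fintype (G ⧸ H)] (a : G)

theorem cross (ha2 : a * a = 1) (hgen : Subgroup.closure ((H : Set G) ∪ {a}) = ⊤)
    (X : Finset (G ⧸ H)) (h1 : X.Nonempty) (h2 : X ≠ univ) :
    ∃ x : G, (x : G ⧸ H) ∈ X ∧ ((x * a : G) : G ⧸ H) ∉ X := by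
  by_contra hcon
  push Not at hcon
  have key : ∀ g ∈ Subgroup.closure ((H : Set G) ∪ {a}), ∀ x : G,
      (((x * g : G) : G ⧸ H) ∈ X ↔ (x : G ⧸ H) ∈ X) := by
    intro g hg
    induction hg using Subgroup.closure_induction with
    | mem g hg =>
      intro x
      rcases hg with hg | hg
      · have : ((x * g : G) : G ⧸ H) = (x : G ⧸ H) := by
          rw [QuotientGroup.eq]
          have e : (x * g)⁻¹ * x = g⁻¹ := by group
          rw [e]
          exact H.inv_mem hg
        rw [this]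
      · rw [Set.mem_singleton_iff] at hg
        subst hg
        refine ⟨fun h => ?_, hcon x⟩
        have := hcon _ h
        rwa [mul_assoc, ha2, mul_one] at this
    | one => intro x; rw [mul_one]
    | mul g k _ _ ihg ihk => intro x; rw [← mul_assoc, ihk, ihg]
    | inv g _ ih =>
      intro x
      rw [← ih (x * g⁻¹), inv_mul_cancel_right]
  obtain ⟨w, hw⟩ := h1
  obtain ⟨y, rfl⟩ := QuotientGroup.mk_surjective w
  apply h2
  rw [Finset.eq_univ_iff_forall]
  intro v
  obtain ⟨z, rfl⟩ := QuotientGroup.mk_surjective v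
  have := key (y⁻¹ * z) (by rw [hgen]; exact Subgroup.mem_top _) y
  rw [mul_inv_cancel_left] at this
  exact this.2 hw

/-- Mader: the edge connectivity of the coset graph is its valency -/
theorem mader (ha2 : a * a = 1) (hgen : Subgroup.closure ((H : Set G) ∪ {a}) = ⊤)
    (X : Finset (G ⧸ H)) (h1 : X.Nonempty) (h2 : X ≠ univ) : 2 * Nat.card H ≤ cG H a X := by
  by_contra hlt
  push Not at hlt
  set P : Finset (Finset (G ⧸ H)) := univ.filter (fun Y => Y.Nonempty ∧ Y ≠ univ) with hP
  have hPm : ∀ Y, Y ∈ P ↔ Y.Nonempty ∧ Y ≠ univ := by intro Y; simp [hP]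
  obtain ⟨X0, hX0, hmin0⟩ := Finset.exists_min_image P (cG H a) ⟨X, (hPm X).2 ⟨h1, h2⟩⟩
  obtain ⟨Y, hY, hmin⟩ := Finset.exists_min_image (P.filter (fun Y => cG H a Y = cG H a X0))
    Finset.card ⟨X0, by simp [hX0]⟩
  rw [Finset.mem_filter] at hY
  obtain ⟨hYP, hYc⟩ := hY
  obtain ⟨hY1, hY2⟩ := (hPm Y).1 hYP
  have hYlt : cG H a Y < 2 * Nat.card H := by
    rw [hYc]
    exact lt_of_le_of_lt (hmin0 X ((hPm X).2 ⟨h1, h2⟩)) hlt
  have hlow : ∀ Z : Finset (G ⧸ H), Z.Nonempty → Z ≠ univ → cG H a Y ≤ cG H a Z := by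
    intro Z h3 h4
    rw [hYc]
    exact hmin0 Z ((hPm Z).2 ⟨h3, h4⟩)
  have hcomp : Y.card ≤ Yᶜ.card := by
    apply hmin
    rw [Finset.mem_filter, hPm]
    refine ⟨⟨?_, ?_⟩, ?_⟩
    · rw [Finset.nonempty_iff_ne_empty]
      intro h
      exact hY2 (by rw [← compl_compl Y, h, Finset.compl_empty])
    · intro h
      rw [Finset.compl_eq_univ_iff] at h
      rw [h] at hY1
      exact Finset.not_nonempty_empty hY1
    · rw [← hYc]
      exact cn_compl _ _ _ _
  have hcard : Y.card + Yᶜ.card = Fintype.card (G ⧸ H) := Finset.card_add_card_compl Y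
  -- translates of `Y` are equal to `Y` or disjoint from it
  have hatom : ∀ g : G, (Y ∩ g • Y).Nonempty → g • Y = Y := by
    intro g hg
    have hgc : (g • Y).card = Y.card := Finset.card_smul_finset g Y
    have hui := Finset.card_union_add_card_inter Y (g • Y)
    have hpos := Finset.card_pos.2 hg
    have hU : Y ∪ g • Y ≠ univ := by
      intro h
      rw [h, Finset.card_univ] at hui
      omega
    have hI : Y ∩ g • Y ≠ univ := by
      intro h
      apply hY2
      rw [Finset.eq_univ_iff_forall] at h ⊢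
      intro v
      exact (Finset.mem_inter.1 (h v)).1
    have hUn : (Y ∪ g • Y).Nonempty := hY1.mono Finset.subset_union_left
    have e1 := hlow _ hg hI
    have e2 := hlow _ hUn hU
    have e3 := cG_smul H a Y g
    have e4 := cn_uncross1 (fun x : G => (x : G ⧸ H)) (fun x : G => ((x * a : G) : G ⧸ H)) univ
      Y (g • Y)
    change cG H a Y + cG H a (g • Y) = cG H a (Y ∩ g • Y) + cG H a (Y ∪ g • Y) + _ at e4
    have e5 : cG H a (Y ∩ g • Y) = cG H a Y := by omega
    have e6 : Y.card ≤ (Y ∩ g • Y).card := by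
      apply hmin
      rw [Finset.mem_filter, hPm]
      exact ⟨⟨hg, hI⟩, by rw [e5, hYc]⟩
    have e7 : Y ∩ g • Y = Y := Finset.eq_of_subset_of_card_le Finset.inter_subset_left e6
    have e8 : Y ⊆ g • Y := by
      intro v hv
      have hv' : v ∈ Y ∩ g • Y := by rw [e7]; exact hv
      exact (Finset.mem_inter.1 hv').2
    exact (Finset.eq_of_subset_of_card_le e8 hgc.le).symm
  obtain ⟨x, hx1, hx2⟩ := cross H a ha2 hgen Y hY1 hY2
  have hout : ∀ y : G, (y : G ⧸ H) ∈ Y → ((y * a : G) : G ⧸ H) ∉ Y := by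
    intro y hy hya
    have hg : (x * y⁻¹) • Y = Y := by
      apply hatom
      refine ⟨(x : G ⧸ H), Finset.mem_inter.2 ⟨hx1, ?_⟩⟩
      rw [mem_smul_mk]
      have e : (x * y⁻¹)⁻¹ * x = y := by group
      rw [e]
      exact hy
    apply hx2
    rw [← hg, mem_smul_mk]
    have e : (x * y⁻¹)⁻¹ * (x * a) = y * a := by group
    rw [e]
    exact hya
  -- count
  have hH1 : ∀ h : H, ((x * h : G) : G ⧸ H) = (x : G ⧸ H) := by
    intro h
    rw [QuotientGroup.eq]
    have e : (x * (h : G))⁻¹ * x = (h : G)⁻¹ := by group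
    rw [e]
    exact H.inv_mem h.2
  set I1 : Finset G := univ.image (fun h : H => x * (h : G)) with hI1
  set I2 : Finset G := univ.image (fun h : H => x * (h : G) * a) with hI2
  have c1 : I1.card = Nat.card H := by
    rw [hI1, Finset.card_image_of_injective, Finset.card_univ, Nat.card_eq_fintype_card]
    intro h k hhk
    exact Subtype.ext (mul_left_cancel hhk)
  have c2 : I2.card = Nat.card H := by
    rw [hI2, Finset.card_image_of_injective, Finset.card_univ, Nat.card_eq_fintype_card]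
    intro h k hhk
    exact Subtype.ext (mul_left_cancel (mul_right_cancel hhk))
  have m1 : ∀ z ∈ I1, (z : G ⧸ H) ∈ Y := by
    intro z hz
    obtain ⟨h, _, rfl⟩ := Finset.mem_image.1 hz
    rw [hH1]
    exact hx1
  have m2 : ∀ z ∈ I2, (z : G ⧸ H) ∉ Y ∧ ((z * a : G) : G ⧸ H) ∈ Y := by
    intro z hz
    obtain ⟨h, _, rfl⟩ := Finset.mem_image.1 hz
    refine ⟨?_, ?_⟩
    · apply hout
      rw [hH1]; exact hx1
    · rw [mul_assoc, ha2, mul_one, hH1]
      exact hx1
  have hdis : Disjoint I1 I2 := by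
    rw [Finset.disjoint_left]
    intro z hz1 hz2
    exact (m2 z hz2).1 (m1 z hz1)
  have hsub : I1 ∪ I2 ⊆ univ.filter (fun e : G => ¬ ((e : G ⧸ H) ∈ Y ↔ ((e * a : G) : G ⧸ H) ∈ Y)) := by
    intro z hz
    rw [Finset.mem_filter]
    refine ⟨Finset.mem_univ _, ?_⟩
    rcases Finset.mem_union.1 hz with hz | hz
    · intro h
      exact hout z (m1 z hz) (h.1 (m1 z hz))
    · intro h
      exact (m2 z hz).1 (h.2 (m2 z hz).2)
  have hle := Finset.card_le_card hsub
  rw [Finset.card_union_of_disjoint hdis, c1, c2] at hle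
  have : cG H a Y = (univ.filter
      (fun e : G => ¬ ((e : G ⧸ H) ∈ Y ↔ ((e * a : G) : G ⧸ H) ∈ Y))).card := rfl
  omega

/-! ### the edges -/

/-- the unordered pairs `{x, xa}` -/
abbrev Ed (a : G) : Type := G ⧸ Subgroup.zpowers a

/-- representative of an edge -/
noncomputable def rep (a : G) (e : Ed a) : G := Quotient.out e

theorem rep_mk (a : G) (e : Ed a) : ((rep a e : G) : Ed a) = e := QuotientGroup.out_eq' e

theorem mem_zp {a : G} (ha2 : a * a = 1) {y : G} (hy : y ∈ Subgroup.zpowers a) : y = 1 ∨ y = a := by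
  obtain ⟨k, rfl⟩ := Subgroup.mem_zpowers_iff.1 hy
  rcases Int.even_or_odd k with ⟨m, rfl⟩ | ⟨m, rfl⟩
  · left
    rw [← two_mul, zpow_mul, zpow_two, ha2, one_zpow]
  · right
    rw [zpow_add, zpow_mul, zpow_two, ha2, one_zpow, one_mul, zpow_one]

theorem mk_mul {a : G} (x : G) : ((x * a : G) : Ed a) = (x : Ed a) := by
  rw [QuotientGroup.eq]
  have e : (x * a)⁻¹ * x = a⁻¹ := by group
  rw [e]
  exact Subgroup.inv_mem _ (Subgroup.mem_zpowers a)

theorem rep_cases {a : G} (ha2 : a * a = 1) (x : G) :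
    x = rep a (x : Ed a) ∨ x = rep a (x : Ed a) * a := by
  have h := rep_mk a (x : Ed a)
  rw [QuotientGroup.eq] at h
  rcases mem_zp ha2 h with h | h
  · left
    exact (inv_mul_eq_one.1 h).symm
  · right
    rw [inv_mul_eq_iff_eq_mul] at h
    exact h

/-- ends of an edge -/
noncomputable def eA (e : Ed a) : G ⧸ H := ((rep a e : G) : G ⧸ H)

/-- ends of an edge -/
noncomputable def eB (e : Ed a) : G ⧸ H := ((rep a e * a : G) : G ⧸ H)

theorem cG_le [Fintype (Ed a)] (ha2 : a * a = 1) (X : Finset (G ⧸ H)) :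
    cG H a X ≤ 2 * cn (eA H a) (eB H a) univ X := by
  unfold cG cn
  apply Finset.card_le_mul_card_image_of_maps_to (f := fun x : G => (x : Ed a))
  · intro x hx
    rw [Finset.mem_filter] at hx ⊢
    refine ⟨Finset.mem_univ _, ?_⟩
    intro h
    apply hx.2
    unfold eA eB at h
    rcases rep_cases ha2 x with hc | hc
    · rw [hc]; rw [← hc] at h ⊢; exact h
    · have e1 : rep a (x : Ed a) = x * a := by
        conv_rhs => rw [hc]
        rw [mul_assoc, ha2, mul_one]
      rw [e1, mul_assoc, ha2, mul_one] at h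
      exact h.symm
  · intro e _
    have : (Finset.filter (fun x : G => (x : Ed a) = e)
        (univ.filter (fun e : G => ¬ ((e : G ⧸ H) ∈ X ↔ ((e * a : G) : G ⧸ H) ∈ X)))) ⊆
        {rep a e, rep a e * a} := by
      intro x hx
      rw [Finset.mem_filter] at hx
      rw [Finset.mem_insert, Finset.mem_singleton, ← hx.2]
      exact rep_cases ha2 x
    exact (Finset.card_le_card this).trans Finset.card_le_two

theorem cuts [Fintype (Ed a)] (ha2 : a * a = 1)
    (hgen : Subgroup.closure ((H : Set G) ∪ {a}) = ⊤) (h4 : 4 ≤ Nat.card H)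
    (X : Finset (G ⧸ H)) (h1 : X.Nonempty) (h2 : X ≠ univ) :
    4 ≤ cn (eA H a) (eB H a) univ X := by
  have e1 := mader H a ha2 hgen X h1 h2
  have e2 := cG_le H a ha2 X
  omega

end Run7.h952.LH
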