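import Pool.Agent.Helper879.ECD.Flow
import Pool.Agent.R553.SP.Euler

/-!
# Closed spanning trails in multigraphs whose nonzero cuts have at least four edges

Jaeger's theorem (spanning Eulerian subgraphs), deduced from the packing theorem of Helper879 and the
Euler tours of R553.
-/

set_option autoImplicit false

namespace Run7.h952.LH

open Finset Pool.Agent.Helper879.ECD

variable {W E : Type} [Fintype W] [DecidableEq W] [Fintype E] [DecidableEq E]

/-- A connected multigraph whose cuts have at least four edges has a connected spanning subgraph in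
which all degrees are even. -/
theorem even_sub (a b : E → W) (h4 : ∀ X : Finset W, X.Nonempty → X ≠ univ → 4 ≤ cn a b univ X) :
    ∃ M : Finset E,
      (∀ X : Finset W, X.Nonempty → X ≠ univ → ∃ e ∈ M, ¬ (a e ∈ X ↔ b e ∈ X)) ∧
      ∀ w, Even ((M.filter (fun e => a e = w)).card + (M.filter (fun e => b e = w)).card) := by
  classical
  have h4' : ∀ X : Finset W, cn a b univ X = 0 ∨ 4 ≤ cn a b univ X := by
    intro X
    by_cases h1 : X.Nonempty
    · by_cases h2 : X = univ
      · left; subst h2; simp [cn]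
      · right; exact h4 X h1 h2
    · left
      rw [Finset.not_nonempty_iff_eq_empty] at h1
      subst h1; simp [cn]
  obtain ⟨I, J, hd, hI, hJ⟩ := pack (F := F2) (x := inc a b) (fun R => rank_cond a b h4' R)
  have hτ : ∑ e, inc a b e ∈ sp F2 (inc a b) univ :=
    Submodule.sum_mem _ (fun e _ => mem_sp (Finset.mem_univ e))
  rw [← hI] at hτ
  obtain ⟨c, hc⟩ := exists_coeff hτ
  let ψ : E → F2 := fun e => 1 + if e ∈ I then c e else 0
  have hsum : ∑ e, ψ e • inc a b e = 0 := by
    have h2 : ∀ e ∈ (univ : Finset E), ψ e • inc a b e =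
        inc a b e + if e ∈ I then c e • inc a b e else 0 := by
      intro e _
      simp only [ψ]
      rw [add_smul, one_smul]
      split_ifs <;> simp
    rw [Finset.sum_congr rfl h2, Finset.sum_add_distrib, ← Finset.sum_filter,
      Finset.filter_mem_eq_inter, Finset.univ_inter, hc]
    ext w; exact f2_add_self _
  refine ⟨univ.filter (fun e => ψ e ≠ 0), ?_, ?_⟩
  · intro X hX1 hX2
    by_contra hcon
    push Not at hcon
    have hcon' : ∀ e ∈ J, (a e ∈ X ↔ b e ∈ X) := by
      intro e he
      apply hcon e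
      rw [Finset.mem_filter]
      refine ⟨Finset.mem_univ _, ?_⟩
      have : e ∉ I := fun h => Finset.disjoint_left.1 hd h he
      simp [ψ, this]
    let ch : W → F2 := fun w => if w ∈ X then 1 else 0
    have hle : sp F2 (inc a b) J ≤ LinearMap.ker (fnl ch) := by
      unfold sp
      rw [Submodule.span_le]
      rintro _ ⟨e, he, rfl⟩
      rw [SetLike.mem_coe, LinearMap.mem_ker, fnl_inc]
      have := hcon' e (Finset.mem_coe.1 he)
      by_cases h : a e ∈ X
      · have h' := this.1 h
        simp only [ch, h, h', if_true]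
        exact f2_add_self _
      · have h' : b e ∉ X := fun h' => h (this.2 h')
        simp [ch, h, h']
    have h5 := h4 X hX1 hX2
    have h6 : 0 < cn a b univ X := by omega
    unfold cn at h6
    obtain ⟨e, he⟩ := Finset.card_pos.1 h6
    rw [Finset.mem_filter] at he
    have h7 : inc a b e ∈ sp F2 (inc a b) J := by
      rw [hJ]; exact mem_sp (Finset.mem_univ e)
    have h8 := hle h7
    rw [LinearMap.mem_ker, fnl_inc] at h8
    have h9 := he.2
    by_cases h : a e ∈ X
    · have h' : b e ∉ X := fun h' => h9 ⟨fun _ => h', fun _ => h⟩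
      simp [ch, h, h'] at h8
    · have h' : b e ∈ X := by
        by_contra h'
        exact h9 ⟨fun h'' => absurd h'' h, fun h'' => absurd h'' h'⟩
      simp [ch, h, h'] at h8
  · intro w
    have h1 := congrArg (fun f => f w) hsum
    simp only [Finset.sum_apply, Pi.smul_apply, Pi.zero_apply, smul_eq_mul] at h1
    have h2 : ∀ e ∈ (univ : Finset E), ψ e * inc a b e w =
        (if ψ e ≠ 0 ∧ a e = w then 1 else 0) + (if ψ e ≠ 0 ∧ b e = w then 1 else 0) := by
      intro e _
      have h3 : inc a b e w = (if a e = w then 1 else 0) + (if b e = w then 1 else 0) := by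
        unfold inc
        rw [Pi.add_apply, Pi.single_apply, Pi.single_apply]
        simp only [eq_comm]
      rw [h3]
      rcases f2_cases (ψ e) with h | h
      · simp [h]
      · simp [h]
    rw [Finset.sum_congr rfl h2, Finset.sum_add_distrib, Finset.sum_boole, Finset.sum_boole,
      ← Nat.cast_add] at h1
    rw [Finset.filter_filter, Finset.filter_filter]
    exact (ZMod.natCast_eq_zero_iff_even).1 h1

/-- closed spanning trail -/
theorem exists_trail [Nontrivial W] (a b : E → W)
    (h4 : ∀ X : Finset W, X.Nonempty → X ≠ univ → 4 ≤ cn a b univ X) :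
    ∃ l : List (E × Bool), l ≠ [] ∧ (l.map Prod.fst).Nodup ∧
      Pool.Agent.R553.SP.CC
        (fun x y => Pool.Agent.R553.SP.hd a b x = Pool.Agent.R553.SP.tl a b y) l ∧
      ∀ w, ∃ d ∈ l, Pool.Agent.R553.SP.hd a b d = w := by
  classical
  obtain ⟨M, hM1, hM2⟩ := even_sub a b h4
  obtain ⟨w0, w1, hw⟩ := exists_pair_ne W
  have hsp : ∀ w : W, ∃ e ∈ M, a e = w ∨ b e = w := by
    intro w
    have hne : ({w} : Finset W) ≠ univ := by
      intro h
      have h0 : w0 ∈ ({w} : Finset W) := by rw [h]; exact Finset.mem_univ _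
      have h1 : w1 ∈ ({w} : Finset W) := by rw [h]; exact Finset.mem_univ _
      rw [Finset.mem_singleton] at h0 h1
      exact hw (h0.trans h1.symm)
    obtain ⟨e, he, h⟩ := hM1 {w} (Finset.singleton_nonempty w) hne
    refine ⟨e, he, ?_⟩
    rw [Finset.mem_singleton, Finset.mem_singleton] at h
    tauto
  let a' : {e // e ∈ M} → W := fun e => a e.1
  let b' : {e // e ∈ M} → W := fun e => b e.1
  obtain ⟨e0, he0, -⟩ := hsp w0
  have : Nonempty {e // e ∈ M} := ⟨⟨e0, he0⟩⟩
  have hcard : ∀ (f : E → W) (q : W), (univ.filter fun e : {e // e ∈ M} => f e.1 = q).card =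
      (M.filter (fun e => f e = q)).card := by
    intro f q
    rw [← Finset.card_map (Function.Embedding.subtype (fun e => e ∈ M))]
    congr 1
    ext e
    simp only [Finset.mem_map, Finset.mem_filter, Finset.mem_univ, true_and,
      Function.Embedding.subtype_apply, Subtype.exists, exists_and_left, exists_prop]
    constructor
    · rintro ⟨a, h1, h2, rfl⟩
      exact ⟨h2, h1⟩
    · rintro ⟨h1, h2⟩
      exact ⟨e, h2, h1, rfl⟩
  have hconn : ∀ S : Set {e // e ∈ M}, S.Nonempty → Sᶜ.Nonempty →
      ∃ e ∈ S, ∃ f ∉ S, Pool.Agent.R553.SP.Share a' b' e f := by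
    intro S hS1 hS2
    let X : Finset W := univ.filter (fun w => ∃ e ∈ S, a' e = w ∨ b' e = w)
    have hXm : ∀ w, w ∈ X ↔ ∃ e ∈ S, a' e = w ∨ b' e = w := by
      intro w; simp [X]
    have hXne : X.Nonempty := by
      obtain ⟨e, he⟩ := hS1
      exact ⟨a' e, (hXm _).2 ⟨e, he, Or.inl rfl⟩⟩
    obtain ⟨f, hf⟩ := hS2
    by_cases hX : X = univ
    · have : a' f ∈ X := by rw [hX]; exact Finset.mem_univ _
      obtain ⟨e, he, h⟩ := (hXm _).1 this
      refine ⟨e, he, f, hf, ?_⟩
      unfold Pool.Agent.R553.SP.Share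
      tauto
    · obtain ⟨g, hg, h⟩ := hM1 X hXne hX
      have hgS : (⟨g, hg⟩ : {e // e ∈ M}) ∉ S := by
        intro hgS
        apply h
        exact ⟨fun _ => (hXm _).2 ⟨⟨g, hg⟩, hgS, Or.inr rfl⟩,
          fun _ => (hXm _).2 ⟨⟨g, hg⟩, hgS, Or.inl rfl⟩⟩
      by_cases h' : a g ∈ X
      · obtain ⟨e, he, h2⟩ := (hXm _).1 h'
        refine ⟨e, he, ⟨g, hg⟩, hgS, ?_⟩
        unfold Pool.Agent.R553.SP.Share
        rcases h2 with h2 | h2
        · exact Or.inl h2
        · exact Or.inr (Or.inr (Or.inl h2))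
      · have h'' : b g ∈ X := by
          by_contra h''
          exact h ⟨fun h3 => absurd h3 h', fun h3 => absurd h3 h''⟩
        obtain ⟨e, he, h2⟩ := (hXm _).1 h''
        refine ⟨e, he, ⟨g, hg⟩, hgS, ?_⟩
        unfold Pool.Agent.R553.SP.Share
        rcases h2 with h2 | h2
        · exact Or.inr (Or.inl h2)
        · exact Or.inr (Or.inr (Or.inr h2))
  obtain ⟨l, hl1, hl2, hl3, hl4⟩ := Pool.Agent.R553.SP.euler a' b'
    (fun q => by rw [hcard a q, hcard b q]; exact hM2 q) hconn
  let φ : {e // e ∈ M} × Bool → E × Bool := fun x => (x.1.1, x.2)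
  have hhd : ∀ x, Pool.Agent.R553.SP.hd a b (φ x) = Pool.Agent.R553.SP.hd a' b' x := fun x => rfl
  have htl : ∀ x, Pool.Agent.R553.SP.tl a b (φ x) = Pool.Agent.R553.SP.tl a' b' x := fun x => rfl
  refine ⟨l.map φ, by simpa using hl1, ?_, ?_, ?_⟩
  · have : (l.map φ).map Prod.fst = (l.map Prod.fst).map Subtype.val := by
      rw [List.map_map, List.map_map]; rfl
    rw [this]
    exact hl2.map Subtype.val_injective
  · obtain ⟨h1, h2⟩ := hl4
    refine ⟨?_, ?_⟩
    · rw [List.isChain_map]
      exact h1
    · intro y hy z hz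
      rw [List.getLast?_map] at hy
      rw [List.head?_map] at hz
      obtain ⟨y', hy', rfl⟩ := Option.mem_map.1 hy
      obtain ⟨z', hz', rfl⟩ := Option.mem_map.1 hz
      exact h2 y' hy' z' hz'
  · intro w
    -- some dart has an end at `w`; its head or its tail, and the predecessor of the latter
    obtain ⟨e, he, hw'⟩ := hsp w
    have h1 := hl3 ⟨e, he⟩
    obtain ⟨d, hd, hde⟩ := List.mem_map.1 h1
    have h2 : Pool.Agent.R553.SP.hd a' b' d = w ∨ Pool.Agent.R553.SP.tl a' b' d = w := by
      unfold Pool.Agent.R553.SP.hd Pool.Agent.R553.SP.tl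
      rw [hde]
      change (if d.2 then b e else a e) = w ∨ (if d.2 then a e else b e) = w
      rcases d with ⟨d1, d2⟩
      cases d2 <;> simp <;> tauto
    rcases h2 with h2 | h2
    · exact ⟨φ d, List.mem_map.2 ⟨d, hd, rfl⟩, h2⟩
    · obtain ⟨A, B, rfl⟩ := List.append_of_mem hd
      obtain ⟨hc1, hc2⟩ := hl4
      rcases List.eq_nil_or_concat A with hA | ⟨A', p, hA⟩
      · subst hA
        have hne : (([] : List ({e // e ∈ M} × Bool)) ++ d :: B) ≠ [] := by simp
        refine ⟨φ ((([] : List ({e // e ∈ M} × Bool)) ++ d :: B).getLast hne),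
          List.mem_map.2 ⟨_, List.getLast_mem hne, rfl⟩, ?_⟩
        rw [hhd, ← h2]
        apply hc2
        · rw [List.getLast?_eq_getLast_of_ne_nil hne]; rfl
        · simp
      · subst hA
        refine ⟨φ p, List.mem_map.2 ⟨p, by simp, rfl⟩, ?_⟩
        rw [hhd, ← h2]
        rw [List.isChain_append] at hc1
        apply hc1.2.2
        · simp
        · simp

end Run7.h952.LH
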