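import Pool.Agent.Run7.h952.LH.Cut
import Pool.Agent.R759.HCPair

/-!
# Hamiltonian cycles in `Cay(G, (H ∖ 1) ∪ {a})`
-/

set_option autoImplicit false
set_option linter.unusedSectionVars false

namespace Run7.h952.LH

open Finset Pool.Agent.Helper879.ECD
open Pool.Agent.R553.SP (CC hd tl)
open Pool.Agent.R759.HC (CycOn ClosedListing listing_of_cyc)

attribute [local instance] Classical.propDecidable

lemma cyc_aux {α : Type*} (R : α → α → Prop) (L : List α) (hne : L ≠ [])
    (h : CC R L) (i : ℕ) (h1 : i % L.length < L.length) (h2 : (i + 1) % L.length < L.length) :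
    R (L[i % L.length]) (L[(i + 1) % L.length]) := by
  obtain ⟨hc, hl⟩ := h
  by_cases hk : i % L.length + 1 < L.length
  · have e : (i + 1) % L.length = i % L.length + 1 := by
      rw [Nat.add_mod]
      by_cases hL : L.length = 1
      · omega
      · rw [Nat.mod_eq_of_lt (a := 1) (by omega)]
        exact Nat.mod_eq_of_lt hk
    have := List.isChain_iff_getElem.mp hc (i % L.length) hk
    simp only [e]
    exact this
  · have e0 : i % L.length = L.length - 1 := by omega
    have e : (i + 1) % L.length = 0 := by
      rw [← Nat.mod_add_mod]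
      rw [show i % L.length + 1 = L.length by omega]
      exact Nat.mod_self _
    have hlast : L.getLast? = some (L[L.length - 1]'(by omega)) := by
      rw [List.getLast?_eq_getLast_of_ne_nil hne, List.getLast_eq_getElem]
    have hhead : L.head? = some (L[0]'(by omega)) := by
      rw [List.head?_eq_some_head hne, List.head_eq_getElem]
    have := hl _ (by rw [hlast]; rfl) _ (by rw [hhead]; rfl)
    simp only [e, e0]
    exact this

variable {G : Type} [Group G] [Fintype G]

/-- a closed chain of all elements gives a cyclic permutation -/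
theorem cyc_of_list (H : Subgroup G) (a : G) (ha1 : a ≠ 1) (A : Set G)
    (hA : ∀ h ∈ H, h ≠ 1 → h ∈ A) (haA : a ∈ A) (L : List G) (hn : L.Nodup) (hall : ∀ x, x ∈ L)
    (hc : CC (fun u v : G => (u : G ⧸ H) = (v : G ⧸ H) ∨ v = u * a) L) :
    ∃ σ : Equiv.Perm G, CycOn A Set.univ σ := by
  have hlen : 2 ≤ L.length := by
    have h1 := hall 1
    have h2 := hall a
    by_contra hlt
    have hle : L.length ≤ 1 := by omega
    rcases L with _ | ⟨x, _ | ⟨y, L⟩⟩
    · simp at h1
    · simp only [List.mem_singleton] at h1 h2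
      exact ha1 (h2.trans h1.symm)
    · simp at hle
  have hne : L ≠ [] := by
    intro h; rw [h] at hlen; simp at hlen
  refine ⟨L.formPerm, ?_, ?_, ?_, ?_⟩
  · intro x hx; exact absurd (Set.mem_univ x) hx
  · intro x _; exact Set.mem_univ _
  · intro x _
    obtain ⟨i, hi, rfl⟩ := List.getElem_of_mem (hall x)
    rw [List.formPerm_apply_getElem L hn i hi]
    have hm : (i + 1) % L.length < L.length := Nat.mod_lt _ (by omega)
    have hi' : i % L.length < L.length := Nat.mod_lt _ (by omega)
    have h := cyc_aux _ L hne hc i hi' hm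
    have ei : i % L.length = i := Nat.mod_eq_of_lt hi
    simp only [ei] at h
    have hdiff : L[i] ≠ L[(i + 1) % L.length] := by
      intro h'
      have := (List.Nodup.getElem_inj_iff hn).1 h'
      by_cases hk : i + 1 < L.length
      · rw [Nat.mod_eq_of_lt hk] at this
        omega
      · have e : i + 1 = L.length := by omega
        have e2 : (i + 1) % L.length = 0 := by rw [e]; exact Nat.mod_self _
        rw [e2] at this
        omega
    rcases h with h | h
    · apply hA
      · rw [QuotientGroup.eq] at h
        exact h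
      · intro h'
        exact hdiff (inv_mul_eq_one.1 h')
    · rw [h, inv_mul_cancel_left]
      exact haA
  · intro x _ y _
    exact (List.Nodup.isCycleOn_formPerm hn).2 (hall x) (hall y)

/-! ### the blocks -/

section Blocks

variable (H : Subgroup G) (a : G)

/-- tail of a dart, as an element of the group -/
noncomputable def tv (d : Ed a × Bool) : G := if d.2 then rep a d.1 else rep a d.1 * a

theorem tv_mk (d : Ed a × Bool) : ((tv a d : G) : Ed a) = d.1 := by
  unfold tv
  split_ifs
  · exact rep_mk a d.1
  · rw [mk_mul]; exact rep_mk a d.1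

theorem tva_mk (d : Ed a × Bool) : ((tv a d * a : G) : Ed a) = d.1 := by
  rw [mk_mul, tv_mk]

theorem tl_tv (d : Ed a × Bool) : tl (eA H a) (eB H a) d = ((tv a d : G) : G ⧸ H) := by
  unfold tl tv eA eB
  split_ifs <;> rfl

theorem hd_tv (ha2 : a * a = 1) (d : Ed a × Bool) :
    hd (eA H a) (eB H a) d = ((tv a d * a : G) : G ⧸ H) := by
  unfold hd tv eA eB
  split_ifs
  · rfl
  · rw [mul_assoc, ha2, mul_one]

theorem mem_pair (ha2 : a * a = 1) (d : Ed a × Bool) (x : G) (h : (x : Ed a) = d.1) :
    x = tv a d ∨ x = tv a d * a := by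
  have h1 := rep_cases ha2 x
  rw [h] at h1
  unfold tv
  split_ifs
  · exact h1
  · rw [mul_assoc, ha2, mul_one]
    exact h1.symm

variable (l : List (Ed a × Bool)) (D : G ⧸ H → Ed a × Bool)

/-- the unused elements of the coset `hd d`, if `d` is the dart chosen for this coset -/
noncomputable def extra (d : Ed a × Bool) : List G :=
  if D (hd (eA H a) (eB H a) d) = d then
    (univ.filter (fun z : G => (z : G ⧸ H) = hd (eA H a) (eB H a) d ∧
      (z : Ed a) ∉ l.map Prod.fst)).toList
  else []

/-- part of the cycle which belongs to the dart `d` -/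
noncomputable def block (d : Ed a × Bool) : List G := tv a d :: (tv a d * a) :: extra H a l D d

theorem mem_extra {d : Ed a × Bool} {z : G} (h : z ∈ extra H a l D d) :
    D (hd (eA H a) (eB H a) d) = d ∧ (z : G ⧸ H) = hd (eA H a) (eB H a) d ∧
      (z : Ed a) ∉ l.map Prod.fst := by
  unfold extra at h
  split_ifs at h with h1
  · rw [Finset.mem_toList, Finset.mem_filter] at h
    exact ⟨h1, h.2⟩
  · simp at h

theorem nodup_extra (d : Ed a × Bool) : (extra H a l D d).Nodup := by
  unfold extra
  split_ifs
  · exact Finset.nodup_toList _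
  · exact List.nodup_nil

theorem mem_block {d : Ed a × Bool} {z : G} (h : z ∈ block H a l D d) :
    (z : Ed a) = d.1 ∨ z ∈ extra H a l D d := by
  unfold block at h
  rw [List.mem_cons, List.mem_cons] at h
  rcases h with rfl | rfl | h
  · exact Or.inl (tv_mk a d)
  · exact Or.inl (tva_mk a d)
  · exact Or.inr h

theorem block_nodup (ha1 : a ≠ 1) {d : Ed a × Bool} (hd' : d ∈ l) : (block H a l D d).Nodup := by
  unfold block
  have hm : d.1 ∈ l.map Prod.fst := List.mem_map.2 ⟨d, hd', rfl⟩
  rw [List.nodup_cons, List.nodup_cons]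
  refine ⟨?_, ?_, nodup_extra H a l D d⟩
  · rw [List.mem_cons]
    rintro (h | h)
    · exact ha1 (mul_eq_left.1 h.symm)
    · apply (mem_extra H a l D h).2.2
      rw [tv_mk]; exact hm
  · intro h
    apply (mem_extra H a l D h).2.2
    rw [tva_mk]; exact hm

theorem flat_nodup (ha1 : a ≠ 1) (hl : (l.map Prod.fst).Nodup) :
    (l.flatMap (block H a l D)).Nodup := by
  rw [List.nodup_flatMap]
  refine ⟨fun d hd' => block_nodup H a l D ha1 hd', ?_⟩
  have h1 : l.Pairwise (fun x y : Ed a × Bool => x.1 ≠ y.1) := by
    have := hl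
    unfold List.Nodup at this
    rwa [List.pairwise_map] at this
  refine h1.imp_of_mem ?_
  intro d e hd' he' hne
  unfold Function.onFun
  rw [List.disjoint_left]
  intro z hz1 hz2
  have hm1 : d.1 ∈ l.map Prod.fst := List.mem_map.2 ⟨d, hd', rfl⟩
  have hm2 : e.1 ∈ l.map Prod.fst := List.mem_map.2 ⟨e, he', rfl⟩
  rcases mem_block H a l D hz1 with h2 | h2
  · rcases mem_block H a l D hz2 with h3 | h3
    · exact hne (h2.symm.trans h3)
    · apply (mem_extra H a l D h3).2.2
      rw [h2]; exact hm1
  · rcases mem_block H a l D hz2 with h3 | h3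
    · apply (mem_extra H a l D h2).2.2
      rw [h3]; exact hm2
    · obtain ⟨p1, p2, -⟩ := mem_extra H a l D h2
      obtain ⟨q1, q2, -⟩ := mem_extra H a l D h3
      apply hne
      rw [← p1, ← q1, ← p2, ← q2]

theorem flat_mem (ha2 : a * a = 1) (hD : ∀ w, D w ∈ l ∧ hd (eA H a) (eB H a) (D w) = w) (x : G) :
    x ∈ l.flatMap (block H a l D) := by
  rw [List.mem_flatMap]
  by_cases h : (x : Ed a) ∈ l.map Prod.fst
  · obtain ⟨d, hd', hde⟩ := List.mem_map.1 h
    refine ⟨d, hd', ?_⟩
    unfold block
    rw [List.mem_cons, List.mem_cons]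
    rcases mem_pair a ha2 d x hde.symm with h1 | h1
    · exact Or.inl h1
    · exact Or.inr (Or.inl h1)
  · obtain ⟨h1, h2⟩ := hD (x : G ⧸ H)
    refine ⟨D (x : G ⧸ H), h1, ?_⟩
    unfold block
    rw [List.mem_cons, List.mem_cons]
    right; right
    unfold extra
    rw [if_pos (by rw [h2]), Finset.mem_toList, Finset.mem_filter]
    exact ⟨Finset.mem_univ _, h2.symm, h⟩

/-- all elements of the block but the first one are in the coset `hd d` -/
theorem tail_mk (ha2 : a * a = 1) {d : Ed a × Bool} {z : G}
    (h : z ∈ (tv a d * a) :: extra H a l D d) : (z : G ⧸ H) = hd (eA H a) (eB H a) d := by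
  rw [List.mem_cons] at h
  rcases h with rfl | h
  · exact (hd_tv H a ha2 d).symm
  · exact (mem_extra H a l D h).2.1

theorem last_mk (ha2 : a * a = 1) {d : Ed a × Bool} {z : G}
    (h : z ∈ (block H a l D d).getLast?) : (z : G ⧸ H) = hd (eA H a) (eB H a) d := by
  apply tail_mk H a l D ha2
  unfold block at h
  rw [List.getLast?_cons_cons] at h
  exact List.mem_of_getLast? h

theorem flat_cc (ha2 : a * a = 1)
    (hl : CC (fun x y => hd (eA H a) (eB H a) x = tl (eA H a) (eB H a) y) l) :
    CC (fun u v : G => (u : G ⧸ H) = (v : G ⧸ H) ∨ v = u * a) (l.flatMap (block H a l D)) := by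
  obtain ⟨hl1, hl2⟩ := hl
  have hlink : ∀ d e : Ed a × Bool, hd (eA H a) (eB H a) d = tl (eA H a) (eB H a) e →
      ∀ x ∈ (block H a l D d).getLast?, ∀ y ∈ (block H a l D e).head?,
        (x : G ⧸ H) = (y : G ⧸ H) ∨ y = x * a := by
    intro d e hde x hx y hy
    left
    rw [last_mk H a l D ha2 hx, hde, tl_tv]
    unfold block at hy
    rw [List.head?_cons, Option.mem_some_iff] at hy
    rw [hy]
  refine ⟨?_, ?_⟩
  · rw [List.flatMap_def, List.isChain_flatten]
    · refine ⟨?_, ?_⟩
      · intro L hL
        obtain ⟨d, -, rfl⟩ := List.mem_map.1 hL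
        unfold block
        rw [List.isChain_cons_cons]
        refine ⟨Or.inr rfl, ?_⟩
        apply List.Pairwise.isChain
        apply List.pairwise_of_forall_mem_list
        intro x hx y hy
        left
        rw [tail_mk H a l D ha2 hx, tail_mk H a l D ha2 hy]
      · rw [List.isChain_map]
        exact hl1.imp (fun d e hde => hlink d e hde)
    · intro h
      obtain ⟨d, -, hd'⟩ := List.mem_map.1 h
      unfold block at hd'
      exact List.cons_ne_nil _ _ hd'
  · intro x hx y hy
    rcases List.eq_nil_or_concat l with h0 | ⟨l', p, h0⟩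
    · rw [h0] at hx; simp at hx
    · obtain ⟨q, l'', h1⟩ : ∃ q l'', l = q :: l'' := by
        rcases l with _ | ⟨q, l''⟩
        · simp at h0
        · exact ⟨q, l'', rfl⟩
      have hbne : ∀ d, block H a l D d ≠ [] := by
        intro d; unfold block; exact List.cons_ne_nil _ _
      have hx' : x ∈ (block H a l D p).getLast? := by
        have e : ∀ f : Ed a × Bool → List G, l.flatMap f = l'.flatMap f ++ f p := by
          intro f
          rw [h0, List.concat_eq_append, List.flatMap_append]
          simp
        rw [e, List.getLast?_append_of_ne_nil _ (hbne p)] at hx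
        exact hx
      have hy' : y ∈ (block H a l D q).head? := by
        have e : ∀ f : Ed a × Bool → List G, l.flatMap f = f q ++ l''.flatMap f := by
          intro f
          rw [h1, List.flatMap_cons]
        rw [e, List.head?_append_of_ne_nil _ (hbne q)] at hy
        exact hy
      apply hlink p q _ x hx' y hy'
      apply hl2
      · rw [h0]; simp
      · rw [h1]; simp

end Blocks

/-- Hamiltonian cycles for a group generated by a subgroup `H` of order at least four and an
involution. -/
theorem base (H : Subgroup G) (hH : 4 ≤ Nat.card H) (a : G) (ha1 : a ≠ 1) (ha2 : a * a = 1)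
    (hgen : Subgroup.closure ((H : Set G) ∪ {a}) = ⊤) (A : Set G)
    (hA : ∀ h ∈ H, h ≠ 1 → h ∈ A) (haA : a ∈ A) : ∃ σ : Equiv.Perm G, CycOn A Set.univ σ := by
  have : Fintype (G ⧸ H) := Fintype.ofFinite _
  have : Fintype (Ed a) := Fintype.ofFinite _
  by_cases haH : a ∈ H
  · -- `G = H`
    have hHt : H = ⊤ := by
      rw [eq_top_iff, ← hgen, Subgroup.closure_le]
      rintro x (hx | hx)
      · exact hx
      · rw [Set.mem_singleton_iff] at hx
        rw [hx]; exact haH
    refine cyc_of_list H a ha1 A hA haA (univ : Finset G).toList (Finset.nodup_toList _)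
      (fun x => by rw [Finset.mem_toList]; exact Finset.mem_univ _) ?_
    have hall : ∀ u v : G, (u : G ⧸ H) = (v : G ⧸ H) ∨ v = u * a := by
      intro u v
      left
      rw [QuotientGroup.eq, hHt]
      exact Subgroup.mem_top _
    refine ⟨?_, fun y _ z _ => hall y z⟩
    apply List.Pairwise.isChain
    apply List.pairwise_of_forall_mem_list
    intro x _ y _
    exact hall x y
  · have : Nontrivial (G ⧸ H) := by
      refine ⟨⟨((1 : G) : G ⧸ H), ((a : G) : G ⧸ H), ?_⟩⟩
      intro h
      rw [QuotientGroup.eq, inv_one, one_mul] at h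
      exact haH h
    obtain ⟨l, hl1, hl2, hl3, hl4⟩ := exists_trail (eA H a) (eB H a)
      (fun X h1 h2 => cuts H a ha2 hgen hH X h1 h2)
    choose D hD using hl4
    exact cyc_of_list H a ha1 A hA haA (l.flatMap (block H a l D))
      (flat_nodup H a l D ha1 hl2) (flat_mem H a l D ha2 hD) (flat_cc H a l D ha2 hl3)

end Run7.h952.LH
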