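import Pool.Agent.Run7.h952.LH.Ham
import Pool.Agent.Results.MP_688fd0_co.LiftFromSubgroup

/-!
# The theorem inside a larger group
-/

set_option autoImplicit false

namespace Run7.h952.LH

open Pool.Agent.R759.HC (CycOn ClosedListing listing_of_cyc mov_listing)
open Pool.Agent.Results.MP_688fd0_co.LiftFromSubgroup (ClosedListingOf Carried cyc_of_listing)

theorem base_sub {G : Type} [Group G] [Finite G] (B : Set G) (H : Subgroup G)
    (hH : 4 ≤ Nat.card H) (hHB : ∀ h ∈ H, h ≠ 1 → h ∈ B) (a : G) (haB : a ∈ B) (ha1 : a ≠ 1)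
    (ha2 : a * a = 1) :
    ∃ b, ClosedListingOf B (Subgroup.closure ((H : Set G) ∪ {a})) b := by
  set K := Subgroup.closure ((H : Set G) ∪ {a}) with hK
  have hHK : H ≤ K := fun x hx => Subgroup.subset_closure (Or.inl hx)
  have haK : a ∈ K := Subgroup.subset_closure (Or.inr rfl)
  have : Fintype K := Fintype.ofFinite _
  have hcard : Nat.card (H.subgroupOf K) = Nat.card H :=
    Nat.card_congr (Subgroup.subgroupOfEquivOfLe hHK).toEquiv
  have hgen : Subgroup.closure (((H.subgroupOf K : Subgroup K) : Set K) ∪ {(⟨a, haK⟩ : K)}) = ⊤ := by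
    rw [← Subgroup.closure_closure_coe_preimage (k := (H : Set G) ∪ {a})]
    congr 1
    ext x
    simp only [Set.mem_union, SetLike.mem_coe, Subgroup.mem_subgroupOf, Set.mem_singleton_iff,
      Set.mem_preimage]
    rw [Subtype.ext_iff]
  obtain ⟨σ, hσ⟩ := base (H.subgroupOf K) (by rw [hcard]; exact hH) (⟨a, haK⟩ : K)
    (fun h => ha1 (congrArg Subtype.val h)) (Subtype.ext ha2) hgen {x : K | (x : G) ∈ B}
    (fun h hh h1 => hHB _ (Subgroup.mem_subgroupOf.1 hh) (fun h2 => h1 (Subtype.ext h2))) haB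
  obtain ⟨s, hs1, hs2, hs3⟩ := listing_of_cyc hσ
  have e : List.ofFn (fun i => ((s i : K) : G)) = (List.ofFn s).map Subtype.val := by
    rw [List.map_ofFn]; rfl
  refine ⟨fun i => ((s i : K) : G), fun i => ⟨hs1 i, (s i).2⟩, ?_, ?_⟩
  · intro i j hij
    apply hs2
    apply Subtype.ext
    simp only [e, ← List.map_take, ← Subgroup.val_list_prod] at hij
    exact hij
  · rw [e, ← Subgroup.val_list_prod, hs3]
    rfl

theorem main {G : Type} [Group G] [Finite G] (A B : Set G) (hA : ∀ x ∈ A, x⁻¹ ∈ A)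
    (hB : ∀ x ∈ B, x⁻¹ ∈ B) (hBA : B ⊆ A) (H : Subgroup G) (hH : 4 ≤ Nat.card H)
    (hHB : ∀ h ∈ H, h ≠ 1 → h ∈ B) (a : G) (haB : a ∈ B) (ha1 : a ≠ 1) (ha2 : a * a = 1)
    (hcl : Subgroup.closure B = Subgroup.closure ((H : Set G) ∪ {a}))
    (hgen : Subgroup.closure (B ∪ Carried A B) = ⊤) :
    ∃ s : Fin (Nat.card G) → G, ClosedListing A s := by
  have h1 : ∃ b, ClosedListingOf B (Subgroup.closure B) b := by
    rw [hcl]
    exact base_sub B H hH hHB a haB ha1 ha2
  obtain ⟨b, hb⟩ := h1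
  obtain ⟨τ, hτ⟩ := cyc_of_listing B (Subgroup.closure B) b hb
  have h3 : 3 ≤ Nat.card (Subgroup.closure B) := by
    have hle : H ≤ Subgroup.closure B := by
      rw [hcl]
      exact fun x hx => Subgroup.subset_closure (Or.inl hx)
    have := Subgroup.card_le_of_le hle
    omega
  obtain ⟨σ, hσ⟩ := mov_listing A B hA hB hBA h3 (Carried A B) (fun c hc => hc) hgen τ hτ
  exact listing_of_cyc hσ

end Run7.h952.LH
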